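import Pool.Agent.H394Z.MCG.Olig

set_option autoImplicit false

namespace Pool.Agent.Results.MP_3c0c60_lc.ANoPi01MCG

/-- Q2 negated: if `T` is a computable set of finite sequences of naturals closed under initial
segments and `G` is a subgroup of the permutations of the naturals consisting exactly of the
permutations that are branches of `T`, then `G` is not a maximal cofinitary group. -/
theorem result (T : List ℕ → Prop) (_hT : ComputablePred T)
    (_htree : ∀ s t : List ℕ, s <+: t → T t → T s)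
    (G : Subgroup (Equiv.Perm ℕ))
    (hG : ∀ σ : Equiv.Perm ℕ, σ ∈ G ↔ ∀ n : ℕ, T (List.ofFn (fun i : Fin n => σ i))) :
    ¬ ((∀ g ∈ G, g ≠ 1 → {x : ℕ | g x = x}.Finite) ∧
      (∀ H : Subgroup (Equiv.Perm ℕ), G ≤ H →
        (∀ h ∈ H, h ≠ 1 → {x : ℕ | h x = x}.Finite) → H = G)) := by
  rintro ⟨h2, h3⟩
  refine Pool.Agent.H394Z.MCG.no_closed_mcg G ?_ h2 h3
  intro σ hσ
  rw [hG] at hσ
  push Not at hσ
  obtain ⟨n, hn⟩ := hσ
  refine ⟨n, fun τ hτ hmem => hn ?_⟩
  have := (hG τ).mp hmem n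
  have e : (fun i : Fin n => τ i) = (fun i : Fin n => σ i) := funext fun i => hτ i i.2
  rwa [e] at this

end Pool.Agent.Results.MP_3c0c60_lc.ANoPi01MCG
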